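import Pool.Agent.H43.TC.FIN
import Pool.Agent.H43.TC.Targets2

set_option autoImplicit false

namespace Pool.Agent.H54.TC

open Pool.Agent.H43.TC

private theorem cnt (h q c : ℕ) (hc1 : 1 ≤ c) (hch : c ≤ h) :
    ∑ i ∈ Finset.range (h * q), (if i % h + 1 = c then 1 else 0) = q := by
  have hh : 0 < h := by omega
  induction q with
  | zero => simp
  | succ q ih =>
    rw [Nat.mul_succ, Finset.sum_range_add, ih]
    congr 1
    rw [Finset.sum_eq_single (c - 1)]
    · rw [if_pos]
      rw [Nat.mul_add_mod, Nat.mod_eq_of_lt (by omega)]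
      omega
    · intro b hb hbc
      rw [Finset.mem_range] at hb
      rw [if_neg]
      rw [Nat.mul_add_mod, Nat.mod_eq_of_lt hb]
      omega
    · intro hn
      exfalso
      apply hn
      rw [Finset.mem_range]
      omega

private theorem cnt0 (h K c : ℕ) (hh : 0 < h) (hch : h < c) :
    ∑ i ∈ Finset.range K, (if i % h + 1 = c then 1 else 0) = 0 := by
  apply Finset.sum_eq_zero
  intro i _
  rw [if_neg]
  have := Nat.mod_lt i hh
  omega

private theorem compl {k : ℕ} (p : Fin k → Prop) [DecidablePred p] (X : ℕ) :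
    ∑ i, (if p i then 0 else X) + (∑ i, if p i then 1 else 0) * X = k * X := by
  rw [Finset.sum_mul, ← Finset.sum_add_distrib]
  have : ∀ i ∈ (Finset.univ : Finset (Fin k)),
      ((if p i then 0 else X) + (if p i then 1 else 0) * X) = X := by
    intro i _
    split_ifs <;> simp
  rw [Finset.sum_congr rfl this]
  simp

/-- the coefficients -/
private def aa (k m h : ℕ) (i : Fin k) : ZMod (m + 1) := (((i : ℕ) % h + 1 : ℕ) : ZMod (m + 1))

private theorem aa_eq (k m h : ℕ) (hh : 0 < h) (hm : h ≤ m) (i : Fin k) (w : ZMod (m + 1)) :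
    aa k m h i = w ↔ (i : ℕ) % h + 1 = w.val := by
  unfold aa
  have hlt := Nat.mod_lt (i : ℕ) hh
  have h2 : ((i : ℕ) % h + 1) % (m + 1) = (i : ℕ) % h + 1 := Nat.mod_eq_of_lt (by omega)
  constructor
  · intro e
    rw [← e, ZMod.val_natCast, h2]
  · intro e
    rw [e, ZMod.natCast_zmod_val]

private theorem count (k m h : ℕ) (hh : 0 < h) (hm : h ≤ m) (w : ZMod (m + 1)) :
    (∑ i : Fin k, if aa k m h i = w then 1 else 0) =
      ∑ i ∈ Finset.range k, (if i % h + 1 = w.val then 1 else 0) := by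
  rw [← Fin.sum_univ_eq_sum_range (fun i => if i % h + 1 = w.val then 1 else 0) k]
  apply Finset.sum_congr rfl
  intro i _
  simp only [aa_eq k m h hh hm]

private theorem both (k m h d : ℕ) (hh : 0 < h) (hk : h ∣ k) (hmh : (m = h ∧ 2 * k = m * d) ∨
    (m = 2 * h ∧ 2 * k = m * d)) (u : ZMod (m + 1)) (hu : u ≠ 0) :
    (∑ i : Fin k, if aa k m h i = -u then 1 else 0) +
      (∑ i : Fin k, if aa k m h i = u then 1 else 0) = d := by
  have hm : h ≤ m := by omega
  have huv : 0 < u.val := Nat.pos_of_ne_zero (fun e => hu ((ZMod.val_eq_zero u).mp e))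
  have hul : u.val < m + 1 := ZMod.val_lt u
  have hnv : (-u).val = m + 1 - u.val := by
    rw [ZMod.neg_val, if_neg hu]
  rw [count k m h hh hm, count k m h hh hm, hnv]
  obtain ⟨q, rfl⟩ := hk
  rcases hmh with ⟨rfl, h2⟩ | ⟨rfl, h2⟩
  · rw [cnt m q _ (by omega) (by omega), cnt m q _ (by omega) (by omega)]
    have : m * (2 * q) = m * d := by rw [← h2]; ring
    have := Nat.eq_of_mul_eq_mul_left hh this
    omega
  · have hd : q = d := by
      have : (2 * h) * q = (2 * h) * d := by rw [← h2]; ring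
      exact Nat.eq_of_mul_eq_mul_left (by omega) this
    rcases le_or_gt u.val h with hle | hgt
    · rw [cnt0 h _ _ hh (by omega), cnt h q _ (by omega) (by omega)]
      omega
    · rw [cnt h q _ (by omega) (by omega), cnt0 h _ _ hh (by omega)]
      omega

private theorem blue (k m h d : ℕ) (hh : 0 < h) (hk : h ∣ k) (hmh : (m = h ∧ 2 * k = m * d) ∨
    (m = 2 * h ∧ 2 * k = m * d)) (t : ℕ) : ∀ u : ZMod (m + 1),
    walks (aa k m h) (fun v => decide (v = 0)) false t u = if u = 0 then 0 else (2 * k - d) ^ t := by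
  induction t with
  | zero =>
    intro u
    simp [walks]
  | succ t ih =>
    intro u
    unfold walks
    by_cases hu : u = 0
    · simp [hu]
    · rw [if_pos (by simp [hu]), if_neg hu]
      simp_rw [ih]
      rw [Finset.sum_add_distrib]
      have h1 := compl (fun i : Fin k => u + aa k m h i = 0) ((2 * k - d) ^ t)
      have h2 := compl (fun i : Fin k => u - aa k m h i = 0) ((2 * k - d) ^ t)
      have h3 := both k m h d hh hk hmh u hu
      have e1 : (∑ i : Fin k, if u + aa k m h i = 0 then 1 else 0) =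
          ∑ i : Fin k, if aa k m h i = -u then 1 else 0 := by
        apply Finset.sum_congr rfl
        intro i _
        have e : (u + aa k m h i = 0) ↔ (aa k m h i = -u) := by
          rw [eq_neg_iff_add_eq_zero, add_comm u]
        simp only [e]
      have e2 : (∑ i : Fin k, if u - aa k m h i = 0 then 1 else 0) =
          ∑ i : Fin k, if aa k m h i = u then 1 else 0 := by
        apply Finset.sum_congr rfl
        intro i _
        have e : (u - aa k m h i = 0) ↔ (aa k m h i = u) := by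
          rw [sub_eq_zero, eq_comm]
        simp only [e]
      rw [e1] at h1
      rw [e2] at h2
      have h4 : (2 * k - d) ^ (t + 1) = (2 * k) * (2 * k - d) ^ t - d * (2 * k - d) ^ t := by
        rw [pow_succ, mul_comm, Nat.sub_mul]
      have h5 : 2 * k * (2 * k - d) ^ t = k * (2 * k - d) ^ t + k * (2 * k - d) ^ t := by ring
      have h6 : d * (2 * k - d) ^ t =
          (∑ i : Fin k, if aa k m h i = -u then 1 else 0) * (2 * k - d) ^ t +
          (∑ i : Fin k, if aa k m h i = u then 1 else 0) * (2 * k - d) ^ t := by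
        rw [← Nat.add_mul, h3]
      rw [h4, h6, h5]
      omega

theorem div2 : T_DIV := by
  intro k t m hk ht hmk
  have hm0 : 0 < m := Nat.pos_of_dvd_of_pos hmk (by omega)
  obtain ⟨d, hd⟩ := hmk
  -- the period
  obtain ⟨h, hh, hhk, hmh⟩ : ∃ h, 0 < h ∧ h ∣ k ∧ ((m = h ∧ 2 * k = m * d) ∨
      (m = 2 * h ∧ 2 * k = m * d)) := by
    rcases Nat.even_or_odd m with hev | hodd
    · obtain ⟨h, hh⟩ := hev
      refine ⟨h, by omega, ?_, Or.inr ⟨by omega, hd⟩⟩
      refine ⟨d, ?_⟩
      have : 2 * k = 2 * (h * d) := by rw [hd, hh]; ring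
      omega
    · refine ⟨m, hm0, ?_, Or.inl ⟨rfl, hd⟩⟩
      have hcop : Nat.Coprime m 2 := hodd.coprime_two_right
      exact hcop.dvd_of_dvd_mul_left ⟨d, hd⟩
  have hhm : h ≤ m := by omega
  set a : Fin k → ZMod (m + 1) := aa k m h with ha
  have ha0 : a ⟨0, hk⟩ = 1 := by
    rw [ha]
    simp [aa]
  have hsurj : Function.Surjective (lin a) := by
    intro v
    refine ⟨Pi.single ⟨0, hk⟩ v, ?_⟩
    change ∑ j, a j * (Pi.single (⟨0, hk⟩ : Fin k) v : Fin k → ZMod (m + 1)) j = v
    rw [Finset.sum_eq_single (⟨0, hk⟩ : Fin k)]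
    · rw [Pi.single_eq_same, ha0, one_mul]
    · intro j _ hj
      rw [Pi.single_eq_of_ne hj, mul_zero]
    · intro hn
      exact absurd (Finset.mem_univ _) hn
  have hane : ∀ i, a i ≠ 0 := by
    intro i hi
    rw [ha, aa_eq k m h hh hhm, ZMod.val_zero] at hi
    omega
  have hWR : ∑ u, walks a (fun v => decide (v = 0)) true t u = 0 := by
    apply Finset.sum_eq_zero
    intro u _
    obtain ⟨s, rfl⟩ : ∃ s, t = s + 1 := ⟨t - 1, by omega⟩
    unfold walks
    by_cases hu : u = 0
    · rw [if_pos (by simp [hu])]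
      apply Finset.sum_eq_zero
      intro i _
      have hw : ∀ (s : ℕ) (v : ZMod (m + 1)), v ≠ 0 →
          walks a (fun v => decide (v = 0)) true s v = 0 := by
        intro s v hv
        cases s <;> simp [walks, hv]
      rw [hu, zero_add, zero_sub, hw s _ (hane i), hw s _ (neg_ne_zero.mpr (hane i)), add_zero]
    · rw [if_neg (by simp [hu])]
  have hWB : ∑ u, walks a (fun v => decide (v = 0)) false t u = m * (2 * k - d) ^ t := by
    rw [Finset.sum_congr rfl (fun u _ => blue k m h d hh hhk hmh t u)]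
    rw [Finset.sum_ite, Finset.sum_const_zero, zero_add, Finset.sum_const, smul_eq_mul]
    congr 1
    rw [Finset.filter_ne', Finset.card_erase_of_mem (Finset.mem_univ _), Finset.card_univ,
      ZMod.card]
    rfl
  have hr : (Finset.univ.filter (fun u : ZMod (m + 1) => decide (u = 0) = true)).card = 1 := by
    have : (Finset.univ.filter (fun u : ZMod (m + 1) => decide (u = 0) = true)) = {0} := by
      ext u
      simp
    rw [this, Finset.card_singleton]
  have hmain := lin' k (m + 1) t ⟨0, hk⟩ a hsurj (fun v => decide (v = 0)) 1 0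
    (m * (2 * k - d) ^ t) hr (by omega) (by omega) hWR hWB
  have hmR : (0 : ℝ) < m := by exact_mod_cast hm0
  have hkR : (0 : ℝ) < k := by exact_mod_cast hk
  have hdk : d ≤ 2 * k := by
    rw [hd]
    exact Nat.le_mul_of_pos_left d hm0
  have hcast : (((2 * k - d : ℕ) : ℝ)) = 2 * k - d := by
    rw [Nat.cast_sub hdk]
    push_cast
    ring
  have hdR : (2 * k : ℝ) = m * d := by exact_mod_cast hd
  have hd0 : (d : ℝ) ≠ 0 := by
    intro e
    rw [e, mul_zero] at hdR
    linarith
  have e1 : (((0 : ℕ) : ℝ) / (2 * k : ℝ) ^ t + ((m + 1 : ℕ) : ℝ) - 2 * ((1 : ℕ) : ℝ)) /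
      (((m + 1 : ℕ) : ℝ) - ((1 : ℕ) : ℝ)) = 1 - 1 / m := by
    have e3 : (((m + 1 : ℕ) : ℝ) - ((1 : ℕ) : ℝ)) = m := by push_cast; ring
    have e5 : (((0 : ℕ) : ℝ) / (2 * k : ℝ) ^ t + ((m + 1 : ℕ) : ℝ) - 2 * ((1 : ℕ) : ℝ)) = m - 1 := by
      rw [Nat.cast_zero, zero_div]
      push_cast
      ring
    rw [e3, e5, sub_div, div_self hmR.ne']
  have e2 : (((m * (2 * k - d) ^ t : ℕ) : ℝ) / (2 * k : ℝ) ^ t) /
      (((m + 1 : ℕ) : ℝ) - ((1 : ℕ) : ℝ)) = (1 - 1 / m) ^ t := by
    have e3 : (((m + 1 : ℕ) : ℝ) - ((1 : ℕ) : ℝ)) = m := by push_cast; ring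
    rw [e3, Nat.cast_mul, Nat.cast_pow, hcast]
    have e4 : (1 - 1 / m : ℝ) = (2 * k - d) / (2 * k) := by
      rw [hdR, eq_div_iff (mul_ne_zero hmR.ne' hd0)]
      field_simp
    rw [e4, div_pow, mul_div_assoc, mul_div_cancel_left₀ _ hmR.ne']
  rw [e1, e2] at hmain
  exact hmain

end Pool.Agent.H54.TC
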