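import Pool.Agent.H43.TC.Targets

set_option autoImplicit false

namespace Pool.Agent.H54.TC

open Pool.Agent.H43.TC

private theorem seg (C : Set (ℝ × ℝ)) (hC : Convex ℝ C) (a b a' b' x y t : ℝ) (hP : (a, b) ∈ C)
    (hQ : (a', b') ∈ C) (h0 : 0 ≤ t) (h1 : t ≤ 1) (hx : x = (1 - t) * a + t * a')
    (hy : y = (1 - t) * b + t * b') : (x, y) ∈ C := by
  have h := hC hP hQ (a := 1 - t) (b := t) (by linarith) h0 (by ring)
  have e : (x, y) = (1 - t) • ((a, b) : ℝ × ℝ) + t • ((a', b') : ℝ × ℝ) := by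
    ext
    · simp [hx]
    · simp [hy]
  rw [e]
  exact h

/-- from the boundary point above `x` to the point `(x, y)` -/
private theorem vert (C : Set (ℝ × ℝ)) (hC : Convex ℝ C) (x y z : ℝ) (hz : (x, z) ∈ C)
    (hd : (x, x) ∈ C) (h1 : z ≤ y) (h2 : y ≤ x) : (x, y) ∈ C := by
  rcases eq_or_lt_of_le (h1.trans h2) with h | h
  · have : y = x := le_antisymm h2 (by rw [← h]; exact h1)
    rw [this]
    exact hd
  · refine seg C hC x z x x x y ((y - z) / (x - z)) hz hd ?_ ?_ (by ring) ?_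
    · exact div_nonneg (by linarith) (by linarith)
    · rw [div_le_one (by linarith)]
      linarith
    · have : x - z ≠ 0 := by linarith
      field_simp
      ring

/-- one interval of the lower boundary -/
private theorem one (C : Set (ℝ × ℝ)) (hC : Convex ℝ C) (a b a' b' x y : ℝ) (hP : (a, b) ∈ C)
    (hQ : (a', b') ∈ C) (hd : (x, x) ∈ C) (h1 : a ≤ x) (h2 : x ≤ a') (hlt : a < a')
    (hyx : y ≤ x) (hL : b * (a' - x) + b' * (x - a) ≤ y * (a' - a)) : (x, y) ∈ C := by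
  have hne : a' - a ≠ 0 := by linarith
  have hpos : 0 < a' - a := by linarith
  refine vert C hC x y ((b * (a' - x) + b' * (x - a)) / (a' - a)) ?_ hd ?_ hyx
  · refine seg C hC a b a' b' _ _ ((x - a) / (a' - a)) hP hQ ?_ ?_ ?_ ?_
    · exact div_nonneg (by linarith) hpos.le
    · rw [div_le_one hpos]
      linarith
    · field_simp
      ring
    · field_simp
      ring
  · rw [div_le_iff₀ hpos]
    exact hL

private theorem half (C : Set (ℝ × ℝ)) (hC : Convex ℝ C) (h0 : ((0 : ℝ), (0 : ℝ)) ∈ C)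
    (h1 : ((17 / 104 : ℝ), (1 / 26 : ℝ)) ∈ C) (h2 : ((33 / 128 : ℝ), (1 / 16 : ℝ)) ∈ C)
    (h3 : ((1 / 2 : ℝ), (1 / 8 : ℝ)) ∈ C) (h4 : ((3 / 5 : ℝ), (37 / 160 : ℝ)) ∈ C)
    (h5 : ((2 / 3 : ℝ), (5 / 16 : ℝ)) ∈ C) (h6 : ((3 / 4 : ℝ), (27 / 64 : ℝ)) ∈ C)
    (h7 : ((6 / 7 : ℝ), (9 / 14 : ℝ)) ∈ C) (h8 : ((1 : ℝ), (1 : ℝ)) ∈ C) (x y : ℝ)
    (hx0 : 0 ≤ x) (hx1 : x ≤ 1) (hL : Low x y) (hyx : y ≤ x) : (x, y) ∈ C := by
  have hd : (x, x) ∈ C := seg C hC 0 0 1 1 x x x h0 h8 hx0 hx1 (by ring) (by ring)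
  obtain ⟨l1, l2, l3, l4, l5, l6, l7, l8⟩ := hL
  rcases le_total x (17 / 104) with g1 | g1
  · exact one C hC _ _ _ _ x y h0 h1 hd hx0 g1 (by norm_num) hyx (by linarith)
  rcases le_total x (33 / 128) with g2 | g2
  · exact one C hC _ _ _ _ x y h1 h2 hd g1 g2 (by norm_num) hyx (by linarith)
  rcases le_total x (1 / 2) with g3 | g3
  · exact one C hC _ _ _ _ x y h2 h3 hd g2 g3 (by norm_num) hyx (by linarith)
  rcases le_total x (3 / 5) with g4 | g4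
  · exact one C hC _ _ _ _ x y h3 h4 hd g3 g4 (by norm_num) hyx (by linarith)
  rcases le_total x (2 / 3) with g5 | g5
  · exact one C hC _ _ _ _ x y h4 h5 hd g4 g5 (by norm_num) hyx (by linarith)
  rcases le_total x (3 / 4) with g6 | g6
  · exact one C hC _ _ _ _ x y h5 h6 hd g5 g6 (by norm_num) hyx (by linarith)
  rcases le_total x (6 / 7) with g7 | g7
  · exact one C hC _ _ _ _ x y h6 h7 hd g6 g7 (by norm_num) hyx (by linarith)
  · exact one C hC _ _ _ _ x y h7 h8 hd g7 hx1 (by norm_num) hyx (by linarith)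

private theorem hv : ((0 : ℝ), (0 : ℝ)) ∈ verts ∧ ((17 / 104 : ℝ), (1 / 26 : ℝ)) ∈ verts ∧
    ((33 / 128 : ℝ), (1 / 16 : ℝ)) ∈ verts ∧ ((1 / 2 : ℝ), (1 / 8 : ℝ)) ∈ verts ∧
    ((3 / 5 : ℝ), (37 / 160 : ℝ)) ∈ verts ∧ ((2 / 3 : ℝ), (5 / 16 : ℝ)) ∈ verts ∧
    ((3 / 4 : ℝ), (27 / 64 : ℝ)) ∈ verts ∧ ((6 / 7 : ℝ), (9 / 14 : ℝ)) ∈ verts ∧
    ((1 : ℝ), (1 : ℝ)) ∈ verts := by
  unfold verts
  refine ⟨Set.mem_insert _ _,
    Set.mem_insert_of_mem _ (Set.mem_insert _ _),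
    Set.mem_insert_of_mem _ (Set.mem_insert_of_mem _ (Set.mem_insert _ _)),
    Set.mem_insert_of_mem _ (Set.mem_insert_of_mem _ (Set.mem_insert_of_mem _ (Set.mem_insert _ _))),
    Set.mem_insert_of_mem _ (Set.mem_insert_of_mem _ (Set.mem_insert_of_mem _ (Set.mem_insert_of_mem _ (Set.mem_insert _ _)))),
    Set.mem_insert_of_mem _ (Set.mem_insert_of_mem _ (Set.mem_insert_of_mem _ (Set.mem_insert_of_mem _ (Set.mem_insert_of_mem _ (Set.mem_insert _ _))))),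
    Set.mem_insert_of_mem _ (Set.mem_insert_of_mem _ (Set.mem_insert_of_mem _ (Set.mem_insert_of_mem _ (Set.mem_insert_of_mem _ (Set.mem_insert_of_mem _ (Set.mem_insert _ _)))))),
    Set.mem_insert_of_mem _ (Set.mem_insert_of_mem _ (Set.mem_insert_of_mem _ (Set.mem_insert_of_mem _ (Set.mem_insert_of_mem _ (Set.mem_insert_of_mem _ (Set.mem_insert_of_mem _ (Set.mem_insert _ _))))))),
    Set.mem_insert_of_mem _ (Set.mem_insert_of_mem _ (Set.mem_insert_of_mem _ (Set.mem_insert_of_mem _ (Set.mem_insert_of_mem _ (Set.mem_insert_of_mem _ (Set.mem_insert_of_mem _ (Set.mem_insert_of_mem _ (Set.mem_singleton _))))))))⟩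

theorem pol : T_POL := by
  intro x y hx0 hx1 hy0 hy1 hL hL'
  have hC : Convex ℝ (convexHull ℝ (verts ∪ Prod.swap '' verts)) := convex_convexHull ℝ _
  have hin : ∀ p ∈ verts, p ∈ convexHull ℝ (verts ∪ Prod.swap '' verts) := fun p hp =>
    subset_convexHull ℝ _ (Or.inl hp)
  have hin' : ∀ p ∈ verts, Prod.swap p ∈ convexHull ℝ (verts ∪ Prod.swap '' verts) := fun p hp =>
    subset_convexHull ℝ _ (Or.inr ⟨p, hp, rfl⟩)
  obtain ⟨a0, a1, a2, a3, a4, a5, a6, a7, a8⟩ := hv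
  rcases le_total y x with h | h
  · exact half _ hC (hin _ a0) (hin _ a1) (hin _ a2) (hin _ a3) (hin _ a4) (hin _ a5)
      (hin _ a6) (hin _ a7) (hin _ a8) x y hx0 hx1 hL h
  · have hC' : Convex ℝ (Prod.swap ⁻¹' (convexHull ℝ (verts ∪ Prod.swap '' verts)) :
        Set (ℝ × ℝ)) := by
      intro p hp q hq a b ha hb hab
      exact hC hp hq ha hb hab
    have := half (Prod.swap ⁻¹' (convexHull ℝ (verts ∪ Prod.swap '' verts)) : Set (ℝ × ℝ)) hC'
      (hin' _ a0) (hin' _ a1) (hin' _ a2) (hin' _ a3) (hin' _ a4) (hin' _ a5) (hin' _ a6)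
      (hin' _ a7) (hin' _ a8) y x hy0 hy1 hL' h
    exact this

end Pool.Agent.H54.TC
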